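import Mathlib
import Pool.Agent.Lib_helper97.PermPrime.Main

/-!
# Permutable primes in base ten outside the list `L` (MP_6e4b90_nt, Q1, partial)

A permutable prime is either in the list `L` of the problem, or all but one of its digits are equal
to a digit `a` and the remaining digit is `b`, where `(a, b)` is one of the five pairs
`(1, 3)`, `(3, 1)`, `(3, 7)`, `(7, 3)`, `(7, 9)`, and its number of digits is a multiple of `18`.
-/

namespace Pool.Agent.Results.MP_6e4b90_nt.NearRepdigitTypes

/-- `p` is a permutable prime (absolute prime) in base ten: it is prime, its decimal digits are not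
all equal, and every rearrangement of its decimal digits is prime. -/
def IsPermutablePrime (p : ℕ) : Prop :=
  p.Prime ∧ (∃ c ∈ Nat.digits 10 p, ∃ d ∈ Nat.digits 10 p, c ≠ d) ∧
    ∀ l : List ℕ, l.Perm (Nat.digits 10 p) → (Nat.ofDigits 10 l).Prime

/-- The list `L` of the problem. -/
def L : List ℕ := [13, 31, 17, 71, 37, 73, 79, 97, 113, 131, 311, 199, 919, 991, 337, 373, 733]

/-- The five pairs (repeated digit, exceptional digit) that are not excluded. -/
def types : List (ℕ × ℕ) := [(1, 3), (3, 1), (3, 7), (7, 3), (7, 9)]

/-- Every permutable prime is in `L`, or has `n` decimal digits, with `18 ∣ n`, of which one is `b`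
and all the others are `a`, where `(a, b)` is one of the five pairs in `types`. -/
theorem result (p : ℕ) (hp : IsPermutablePrime p) :
    p ∈ L ∨ ∃ a b n j : ℕ, (a, b) ∈ types ∧ 0 < n ∧ 18 ∣ n ∧ j < n ∧
      Nat.digits 10 p = List.replicate j a ++ b :: List.replicate (n - 1 - j) a := by
  obtain ⟨-, hne, hall⟩ := hp
  have h := Pool.Agent.LibH97.PermPrime.main (Nat.digits 10 p)
    (fun d hd => Nat.digits_lt_base (by norm_num) hd) hne hall
  rcases h with h | h
  · left
    rw [Nat.ofDigits_digits] at h
    exact h
  · right
    exact h

end Pool.Agent.Results.MP_6e4b90_nt.NearRepdigitTypes
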